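import Pool.Agent.TH350.SC.Fin

/-!
# Schneider's conjecture over `ℚ`: almost all primes, few exceptional residue classes of twists

For an odd prime `p` and `r ≥ 2` the group `H²(ℤ[1/p], ℚ_p/ℤ_p(1-r))` vanishes for even `r` (Soulé), and
for odd `r` if and only if the value `ζ_p(r) = L_p(r, ω^{1-r})` of the `p`-adic zeta function is not
zero, by the main conjecture of Iwasawa theory (Mazur-Wiles) and the duality of Poitou and Tate.  Let `m`
be an integer, `1 ≤ m ≤ (p - 3)/2`.  `GoodClass p m` says that for all `r ≥ 2` with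
`r ≡ 1 - 2m (mod p - 1)` the value
`ζ_p(r) = 1/(r-1) · lim_N p^{-N} ∑_{0 < a < p^N, p ∤ a} a^{1-r}` exists and is a `p`-adic unit.  So
Schneider's conjecture holds for `ℚ`, `p` and all these `r`.  The definitions are in
`Pool.Agent.TH350.SC.Defs`.
-/

set_option autoImplicit false

namespace Pool.Agent.Results.MP_59f3ad_nt.AlmostAllPrimesOverQ

open Pool.Agent.TH350.SC Filter Topology

/-- For every `η > 0` and every function `ψ` that tends to infinity, almost all primes `p` have the
following property: for all `K` the number of the `m ≤ K`, `1 ≤ m ≤ (p - 3)/2`, such that not all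
values `ζ_p(r)`, `r ≥ 2`, `r ≡ 1 - 2m (mod p - 1)`, are `p`-adic units is at most
`ψ(p) (K² log p / p)^{1+η}`. -/
theorem result (η : ℝ) (hη : 0 < η) (ψ : ℕ → ℝ) (hψ : Tendsto ψ atTop atTop) :
    Tendsto (fun X : ℕ =>
        (({p : ℕ | p ≤ X ∧ p.Prime ∧ ∀ K : ℕ,
            (badCount p K : ℝ) ≤ ψ p * ((K : ℝ) ^ 2 * Real.log p / p) ^ (1 + η)}.ncard : ℕ) : ℝ)
          / (({p : ℕ | p ≤ X ∧ p.Prime}.ncard : ℕ) : ℝ))
      atTop (𝓝 1) :=
  sparse η hη ψ hψ

end Pool.Agent.Results.MP_59f3ad_nt.AlmostAllPrimesOverQ
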