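import Mathlib
import Pool.Agent.TH350.SC.Fin
import Pool.Agent.Results.MP_a3a416_nt.BalancedRegularSums

/-!
# Schneider's conjecture over `ℚ`: sums of two good classes of twists, for every prime

For an odd prime `p` and odd `r > 1` Schneider's conjecture for `(ℚ, p, r)` holds if and only if
`ζ_p(r) = L_p(r, ω^{1-r})` is not zero (main conjecture of Iwasawa theory, Poitou-Tate duality).
Call `m`, `1 ≤ m ≤ (p - 3) / 2`, good for `p` if for all `r ≥ 2` with `r ≡ 1 - 2m (mod p - 1)` the value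
`ζ_p(r) = 1/(r-1) · lim_N p^{-N} ∑_{0 < a < p^N, p ∤ a} a^{1-r}` exists and is a `p`-adic unit; then the
conjecture holds for `ℚ`, `p` and all these `r`.

For every prime `p`, every `N`, `2 ≤ N ≤ (p - 3) / 2`, and every `V < N / 2` let `s` be the number of the `i`,
`V < i < N - V`, such that `i` and `N - i` are both good. Then `2 (N - V) ≤ (2 s + 1) (4 V + 3 s + 1)`. So every
such `N` is a sum of two good `m` in at least about `√(N / 3)` ways, and it is a sum of two good `m` which are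
both at least `N / 3`.
-/

set_option autoImplicit false

open Finset Filter Topology

namespace Pool.Agent.Results.MP_59f3ad_nt.BalancedSumsOfTwists

/-- The approximants `1/(r-1) · p^{-N} · ∑_{0 < a < p^N, p ∤ a} a^{1-r}` of `ζ_p(r) = L_p(r, ω^{1-r})`. -/
noncomputable def zetaApprox (p : ℕ) [Fact p.Prime] (r N : ℕ) : ℚ_[p] :=
  (∑ a ∈ (range (p ^ N)).filter (fun a => ¬ p ∣ a), ((a : ℚ_[p]) ^ (r - 1))⁻¹) /
    (((r : ℚ_[p]) - 1) * (p : ℚ_[p]) ^ N)

/-- `ζ_p(r)` exists (as the limit of the approximants) and is a `p`-adic unit. -/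
def ZetaUnit (p r : ℕ) : Prop :=
  ∀ [Fact p.Prime], ∃ z : ℚ_[p], ‖z‖ = 1 ∧ Tendsto (fun N => zetaApprox p r N) atTop (𝓝 z)

/-- For every `r ≥ 2` with `r ≡ 1 - 2m (mod p - 1)` the value `ζ_p(r)` is a `p`-adic unit. -/
def GoodClass (p m : ℕ) : Prop := ∀ r : ℕ, 2 ≤ r → p - 1 ∣ r - 1 + 2 * m → ZetaUnit p r

open Classical in
theorem result (p : ℕ) (hp : p.Prime) (N : ℕ) (hN2 : 2 ≤ N) (hN : 2 * N + 3 ≤ p) (V : ℕ)
    (hV : 2 * V < N) (s : ℕ)
    (hs : s = ((Ioo V (N - V)).filter (fun i : ℕ => GoodClass p i ∧ GoodClass p (N - i))).card) :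
    2 * (N - V) ≤ (2 * s + 1) * (4 * V + 3 * s + 1) := by
  refine (Pool.Agent.Results.MP_a3a416_nt.BalancedRegularSums.result p hp N hN2 hN V hV _ rfl).trans ?_
  have h1 : ((Finset.Ioo V (N - V)).filter (fun i : ℕ => ¬ ((p : ℤ) ∣ (bernoulli (2 * i)).num) ∧
      ¬ ((p : ℤ) ∣ (bernoulli (2 * (N - i))).num))).card ≤ s := by
    rw [hs]
    refine Finset.card_le_card ?_
    intro i hi
    rw [Finset.mem_filter, Finset.mem_Ioo] at hi ⊢
    obtain ⟨⟨h2, h3⟩, h4, h5⟩ := hi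
    exact ⟨⟨h2, h3⟩, Pool.Agent.TH350.SC.good hp (by omega) (by omega) h4,
      Pool.Agent.TH350.SC.good hp (by omega) (by omega) h5⟩
  gcongr

end Pool.Agent.Results.MP_59f3ad_nt.BalancedSumsOfTwists
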