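import Mathlib
import Pool.Agent.TH350.SC.Fin
import Pool.Agent.Results.MP_a3a416_nt.ManyfoldMatchings

/-!
# Schneider's conjecture over `ℚ`: manyfold perfect matchings by good classes of twists

For an odd prime `p` and odd `r > 1` Schneider's conjecture for `(ℚ, p, r)` holds if and only if
`ζ_p(r) = L_p(r, ω^{1-r})` is not zero (main conjecture of Iwasawa theory, Poitou-Tate duality).
Call `i`, `1 ≤ i ≤ (p - 3) / 2`, good for `p` if for all `r ≥ 2` with `r ≡ 1 - 2i (mod p - 1)` the value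
`ζ_p(r) = 1/(r-1) · lim_N p^{-N} ∑_{0 < a < p^N, p ∤ a} a^{1-r}` exists and is a `p`-adic unit; then the
conjecture holds for `ℚ`, `p` and all these `r`.

Let `k' ≤ k`, `2 ≤ k + k'`, `(k + k' + 1) L < p`, and let `C` be the set of the `(k + k') L - k` triples
`(t, c, l)`, `0 ≤ c < k`, `0 ≤ l < L`, `t` a Boolean, with `l ≥ 1` if `t` is false and `c ≥ k - k'` if `t` is true.
There is a bijection `f` of `C` to the interval `[k + L, (k + k' + 1) L)` such that `f (t, c, l) - (c + l)` is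
always twice a good index. In Hall's form: for every set `S` of shifts at least `∑_{s ∈ S} μ (s)` of the
integers `m` in that interval are of the form `s + 2 i`, `s ∈ S`, `i` good, `μ (s)` the number of the triples
with `c + l = s`. With `k = k' = L = n + 1` every `m` with `2n + 2 ≤ m < (2n + 3)(n + 1)` is `s + 2 i` with
`i` good and `0 ≤ s ≤ 2 n`, if `(2n + 3)(n + 1) < p`.
-/

set_option autoImplicit false

open Finset Filter Topology

namespace Pool.Agent.Results.MP_59f3ad_nt.MatchingsOfTwists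

/-- The approximants `1/(r-1) · p^{-N} · ∑_{0 < a < p^N, p ∤ a} a^{1-r}` of `ζ_p(r) = L_p(r, ω^{1-r})`. -/
noncomputable def zetaApprox (p : ℕ) [Fact p.Prime] (r N : ℕ) : ℚ_[p] :=
  (∑ a ∈ (range (p ^ N)).filter (fun a => ¬ p ∣ a), ((a : ℚ_[p]) ^ (r - 1))⁻¹) /
    (((r : ℚ_[p]) - 1) * (p : ℚ_[p]) ^ N)

/-- `ζ_p(r)` exists (as the limit of the approximants) and is a `p`-adic unit. -/
def ZetaUnit (p r : ℕ) : Prop :=
  ∀ [Fact p.Prime], ∃ z : ℚ_[p], ‖z‖ = 1 ∧ Tendsto (fun N => zetaApprox p r N) atTop (𝓝 z)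

/-- For every `r ≥ 2` with `r ≡ 1 - 2m (mod p - 1)` the value `ζ_p(r)` is a `p`-adic unit. -/
def GoodClass (p m : ℕ) : Prop := ∀ r : ℕ, 2 ≤ r → p - 1 ∣ r - 1 + 2 * m → ZetaUnit p r

/-- The triples `(t, c, l)`, `0 ≤ c < k`, `0 ≤ l < L`, `t` a Boolean, such that `l ≥ 1` if `t` is false and
`c ≥ k - k'` if `t` is true. -/
def triples (k k' L : ℕ) : Set (Bool × ℕ × ℕ) :=
  {x | x.2.1 < k ∧ x.2.2 < L ∧ (x.1 = false → 1 ≤ x.2.2) ∧ (x.1 = true → k ≤ x.2.1 + k')}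

theorem result (p : ℕ) (hp : p.Prime) (k k' L : ℕ) (hk : k' ≤ k) (h2 : 2 ≤ k + k')
    (h : (k + k' + 1) * L < p) :
    ∃ f : Bool × ℕ × ℕ → ℕ, Set.BijOn f (triples k k' L) (Set.Ico (k + L) ((k + k' + 1) * L)) ∧
      ∀ x ∈ triples k k' L, ∃ i : ℕ, 0 < i ∧ 2 * i + 3 ≤ p ∧ f x = x.2.1 + x.2.2 + 2 * i ∧
        GoodClass p i := by
  obtain ⟨f, hf, hf2⟩ :=
    Pool.Agent.Results.MP_a3a416_nt.ManyfoldMatchings.result p hp k k' L hk h2 h
  refine ⟨f, hf, fun x hx => ?_⟩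
  obtain ⟨i, hi, he, hb⟩ := hf2 x hx
  have h1 := hf.mapsTo hx
  rw [Set.mem_Ico] at h1
  have h3 : 2 * i + 2 ≤ p := by omega
  have h4 : 2 * i + 3 ≤ p := by
    rcases hp.eq_two_or_odd with h5 | h5
    · omega
    · omega
  exact ⟨i, hi, h4, he, Pool.Agent.TH350.SC.good hp hi h4 hb⟩

end Pool.Agent.Results.MP_59f3ad_nt.MatchingsOfTwists
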