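import Pool.Agent.X218.LP.Five
import Pool.Agent.X218.LP.Seven
import Mathlib.NumberTheory.Padics.Complex

/-!
# Values of `p`-adic `L`-functions at the integers `r ≥ 2` for families of conductors

Let `p` be an odd prime, `N` an integer prime to `p`, `ψ` a primitive Dirichlet character modulo `N` with values in
`ℂ_p`, `r ≥ 2` an integer and `ψ(-1) = (-1)^(r-1)`, so that `ψ ω^(1-r)` is even (`ω` the Teichmueller character). The
value at `r` of the Kubota-Leopoldt `p`-adic `L`-function of this character is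

  `L_p(r, ψ ω^(1-r)) = lim 1/((r-1) N p^n) ∑ ψ(a) a^(1-r)`,  the sum over `0 ≤ a < N p^n` prime to `p`,

(Washington, Theorem 5.11, with `F = N p^n`). The theorem says that this limit exists and has absolute value `1` in the
following cases, for all `r ≥ 2` and all primitive `ψ` modulo `N` with `ψ(-1) = (-1)^(r-1)`.

* `p = 163, 211, 331` and `N = 2^K`, `K ≥ 0` arbitrary, except for `N = 1`, `r ≡ 1 (mod p - 1)` (the pole) and `N = 8`,
  `r ≡ 0 (mod p - 1)` (the trivial zero of `L_p(s, χ_{-8} ω)`).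
* `p < 300`, `p ≡ 2, 5 (mod 9)`, `p > 2` (22 primes) and `N = 3^K`, `K ≥ 2` arbitrary.
* `p = 11, 29, 41, 83, 137, 167, 173, 191, 227, 239` and `N = 3^K`, `K ≥ 0` arbitrary, except for `N = 1`,
  `r ≡ 1 (mod p - 1)`.
* `p = 7, 31` and `N = 3^K`, `K ≥ 0` arbitrary, except for `N = 1`, `r ≡ 1 (mod p - 1)`, for `N = 3`,
  `r ≡ 0 (mod p - 1)` (a trivial zero) and for `p = 7`, `N = 9`, `r ≡ 1 (mod 6)`.
* `p = 5` and `N = 2^a 3^b`, `a, b ≥ 0` arbitrary, except for `N = 1, 36` and `r ≡ 1 (mod 4)`, `N = 4, 24` and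
  `r ≡ 0 (mod 4)` (trivial zeros), `N = 16` and `r ≡ 3 (mod 4)`, `N = 48` and `r ≡ 2 (mod 4)`.

Relation to Schneider's conjecture (not in the Lean). If for an even character `θ` the `p`-adic `L`-function of `θ` is a
unit, then the Iwasawa module of `θ` (maximal abelian `p`-extension unramified outside `p`) vanishes (main conjecture),
and the conjecture for `(L, p, r)` and an abelian field `L` of degree prime to `p` follows if this holds for the even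
ones among the characters `ψ ω^(1-r)`, `ψ⁻¹ ω^r`, `ψ` running over the characters of `L`. So the theorem gives the
conjecture for infinitely many fields at a time.

Proof. Write `m` for the residue of `1 - r` in `1 ≤ m ≤ p - 1`. The sum in characteristic `p` which gives the value
modulo the maximal ideal depends only on `m`: for `r - 1 = s`, it is the sum of `ψ(c) F_m(c/N)`, `0 ≤ c < N`,
`F_m(x) = m! (B_m(x) - B_m)`, up to a constant, and the Euler factor if `m = 1`. The nonvanishing of these sums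
for all characters over fields of characteristic `p` is shown for `N = 2^K` in `X218/GX/Pow2*.lean` (new) and for
the other families in the files of our results on Greenberg's conjecture.
-/

set_option autoImplicit false
set_option maxRecDepth 100000

namespace Pool.Agent.Results.MP_59f3ad_nt.TwoPowerConductors

open Finset Filter Topology Pool.Agent.X218.LP Pool.Agent.X218.GX

/-- `1/((r-1) N p^n)` times the sum of `ψ(a) a^(1-r)` over `0 ≤ a < N p^n` prime to `p`; its limit for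
`n → ∞` is the value `L_p(r, ψ ω^(1-r))` of the Kubota-Leopoldt `p`-adic `L`-function -/
noncomputable def lApprox {p : ℕ} [Fact p.Prime] {N : ℕ} (ψ : DirichletCharacter ℂ_[p] N) (r n : ℕ) : ℂ_[p] :=
  (∑ a ∈ (range (N * p ^ n)).filter (fun a => ¬ p ∣ a), ψ (a : ZMod N) * ((a : ℂ_[p]) ^ (r - 1))⁻¹) /
    (((r : ℂ_[p]) - 1) * ((N : ℂ_[p]) * (p : ℂ_[p]) ^ n))

/-- `L_p(r, ψ ω^(1-r))` exists and has `p`-adic absolute value `1` -/
def UnitValue {p : ℕ} [Fact p.Prime] {N : ℕ} (ψ : DirichletCharacter ℂ_[p] N) (r : ℕ) : Prop :=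
  ∃ z : ℂ_[p], ‖z‖ = 1 ∧ Tendsto (lApprox ψ r) atTop (𝓝 z)

lemma two_big {p : ℕ} [Fact p.Prime] (hpmem : p ∈ ({163, 211, 331} : Finset ℕ)) :
    p % 8 = 3 ∧ 5 ≤ p ∧ ∃ L, okl p = true ∧ okh p L = true ∧ ok0all p = true := by
  simp only [Finset.mem_insert, Finset.mem_singleton] at hpmem
  rcases hpmem with rfl | rfl | rfl
  · exact ⟨rfl, by norm_num, _, k163⟩
  · exact ⟨rfl, by norm_num, _, k211⟩
  · exact ⟨rfl, by norm_num, _, k331⟩

lemma three_ok {p : ℕ} (hp : p.Prime) (h300 : p < 300) (h2 : 2 < p) (h9 : p % 9 = 2 ∨ p % 9 = 5) :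
    5 ≤ p ∧ ∃ L, ok2all p L = true := by
  have h5 : 5 ≤ p := by
    by_contra hcon
    have : p = 3 ∨ p = 4 := by omega
    omega
  refine ⟨h5, ?_⟩
  rcases list_primes p (List.mem_range.2 h300) h9 h2 with h | ⟨q, hq, h3, h4⟩
  · fin_cases h
    exacts [⟨_, c5⟩, ⟨_, c11⟩, ⟨_, c23⟩, ⟨_, c29⟩, ⟨_, c41⟩, ⟨_, c47⟩, ⟨_, c59⟩, ⟨_, c83⟩, ⟨_, c101⟩, ⟨_, c113⟩,
      ⟨_, c131⟩, ⟨_, c137⟩, ⟨_, c149⟩, ⟨_, c167⟩, ⟨_, c173⟩, ⟨_, c191⟩, ⟨_, c227⟩, ⟨_, c239⟩, ⟨_, c257⟩, ⟨_, c263⟩,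
      ⟨_, c281⟩, ⟨_, c293⟩]
  · exfalso
    have hqp : q ∣ p := Nat.dvd_of_mod_eq_zero h3
    rcases (Nat.dvd_prime hp).1 hqp with h6 | h6
    · fin_cases hq <;> simp at h6
    · omega

lemma three_all {p : ℕ} (hpmem : p ∈ ({11, 29, 41, 83, 137, 167, 173, 191, 227, 239} : Finset ℕ)) :
    (p % 9 = 2 ∨ p % 9 = 5) ∧ 5 ≤ p ∧ ∃ L, ok2all p L = true ∧ ok1all p = true ∧ ok0all p = true := by
  simp only [Finset.mem_insert, Finset.mem_singleton] at hpmem
  rcases hpmem with rfl | rfl | rfl | rfl | rfl | rfl | rfl | rfl | rfl | rfl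
  · exact ⟨Or.inl rfl, by norm_num, _, c11, d11⟩
  · exact ⟨Or.inl rfl, by norm_num, _, c29, d29⟩
  · exact ⟨Or.inr rfl, by norm_num, _, c41, d41⟩
  · exact ⟨Or.inl rfl, by norm_num, _, c83, d83⟩
  · exact ⟨Or.inl rfl, by norm_num, _, c137, d137⟩
  · exact ⟨Or.inr rfl, by norm_num, _, c167, d167⟩
  · exact ⟨Or.inl rfl, by norm_num, _, c173, d173⟩
  · exact ⟨Or.inl rfl, by norm_num, _, c191, d191⟩
  · exact ⟨Or.inl rfl, by norm_num, _, c227, d227⟩
  · exact ⟨Or.inr rfl, by norm_num, _, c239, d239⟩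

theorem result :
    (∀ (p : ℕ) [Fact p.Prime], p ∈ ({163, 211, 331} : Finset ℕ) → ∀ K r : ℕ, 2 ≤ r →
      (K = 0 → ¬ p - 1 ∣ r - 1) → (K = 3 → ¬ p - 1 ∣ r) →
      ∀ ψ : DirichletCharacter ℂ_[p] (2 ^ K), ψ.IsPrimitive → ψ (-1) = (-1) ^ (r - 1) → UnitValue ψ r) ∧
    (∀ (p : ℕ) [Fact p.Prime], 2 < p → p < 300 → (p % 9 = 2 ∨ p % 9 = 5) → ∀ K r : ℕ, 2 ≤ K → 2 ≤ r →
      ∀ ψ : DirichletCharacter ℂ_[p] (3 ^ K), ψ.IsPrimitive → ψ (-1) = (-1) ^ (r - 1) → UnitValue ψ r) ∧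
    (∀ (p : ℕ) [Fact p.Prime], p ∈ ({11, 29, 41, 83, 137, 167, 173, 191, 227, 239} : Finset ℕ) →
      ∀ K r : ℕ, 2 ≤ r → (K = 0 → ¬ p - 1 ∣ r - 1) →
      ∀ ψ : DirichletCharacter ℂ_[p] (3 ^ K), ψ.IsPrimitive → ψ (-1) = (-1) ^ (r - 1) → UnitValue ψ r) ∧
    (∀ (p : ℕ) [Fact p.Prime], p = 7 ∨ p = 31 → ∀ K r : ℕ, 2 ≤ r →
      (K = 0 → ¬ p - 1 ∣ r - 1) → (K = 1 → ¬ p - 1 ∣ r) → (K = 2 → p = 7 → ¬ p - 1 ∣ r - 1) →
      ∀ ψ : DirichletCharacter ℂ_[p] (3 ^ K), ψ.IsPrimitive → ψ (-1) = (-1) ^ (r - 1) → UnitValue ψ r) ∧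
    (∀ [Fact (Nat.Prime 5)], ∀ N r : ℕ, N ≠ 0 → N.primeFactors ⊆ {2, 3} → 2 ≤ r →
      (N = 1 → r % 4 ≠ 1) → (N = 4 → r % 4 ≠ 0) → (N = 24 → r % 4 ≠ 0) → (N = 16 → r % 4 ≠ 3) →
      (N = 48 → r % 4 ≠ 2) → (N = 36 → r % 4 ≠ 1) →
      ∀ ψ : DirichletCharacter ℂ_[5] N, ψ.IsPrimitive → ψ (-1) = (-1) ^ (r - 1) → UnitValue ψ r) := by
  refine ⟨?_, ?_, ?_, ?_, ?_⟩
  · intro p _ hpmem K r hr hex0 hex3 ψ hc hpar
    obtain ⟨hp8, hp5, L, hl, hh, h0⟩ := two_big hpmem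
    rcases Nat.lt_or_ge K 2 with hK | hK
    · interval_cases K
      · exact zero_lev hp5 h0 hr (hex0 rfl) ψ hpar
      · exact (no_prim_two ψ hc).elim
    · exact two_pow hp8 hl hh hK hr hex3 ψ hc hpar
  · intro p hp h2 h300 h9 K r hK hr ψ hc hpar
    obtain ⟨hp5, L, hL⟩ := three_ok hp.out h300 h2 h9
    exact three_pow h9 hp5 hL (by omega) (fun h => by omega) hr ψ hc hpar
  · intro p _ hpmem K r hr hex0 ψ hc hpar
    obtain ⟨hp9, hp5, L, h2, h1, h0⟩ := three_all hpmem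
    rcases Nat.eq_zero_or_pos K with hK | hK
    · subst hK
      exact zero_lev hp5 h0 hr (hex0 rfl) ψ hpar
    · exact three_pow hp9 hp5 h2 hK (fun _ => h1) hr ψ hc hpar
  · intro p _ hp K r hr hex0 hex1 hex2 ψ hc hpar
    rcases Nat.eq_zero_or_pos K with hK | hK
    · subst hK
      rcases hp with rfl | rfl
      · exact zero_lev (by norm_num) e7.2.2 hr (hex0 rfl) ψ hpar
      · exact zero_lev (by norm_num) e31.2.2.2 hr (hex0 rfl) ψ hpar
    · rcases hp with rfl | rfl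
      · exact three_pow1 (by norm_num) (by norm_num) e7.1 e7.2.1 hK hr hex1
          (fun h1 h2 => absurd h2 (hex2 h1 rfl)) ψ hc hpar
      · exact three_pow1 (by norm_num) (by norm_num) e31.1 e31.2.2.1 hK hr hex1
          (fun _ _ => e31.2.1) ψ hc hpar
  · intro _ N r hN0 hN hr e1 e4 e24 e16 e48 e36 ψ hc hpar
    exact five_all' hN0 hN hr e1 e4 e24 e16 e48 e36 ψ hc hpar

end Pool.Agent.Results.MP_59f3ad_nt.TwoPowerConductors
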